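import Mathlib

set_option autoImplicit false

namespace Pool.Agent.Work.MP_eab3e1_ag

open Polynomial

/-- A `K`-derivation of `B` is locally nilpotent if every element of `B` is killed by some
iterate of it. -/
def IsLND {K B : Type*} [CommRing K] [CommRing B] [Algebra K B] (D : Derivation K B B) : Prop :=
  ∀ f : B, ∃ n : ℕ, (⇑D)^[n] f = 0

/-- A derivation has a slice if `D s = 1` for some `s`. -/
def HasSlice {K B : Type*} [CommRing K] [CommRing B] [Algebra K B] (D : Derivation K B B) : Prop :=
  ∃ s : B, D s = 1

/-- The modified Derksen invariant: the `K`-subalgebra generated by the kernels of all locally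
nilpotent derivations that have a slice. -/
def HDstar (K B : Type*) [CommRing K] [CommRing B] [Algebra K B] : Subalgebra K B :=
  Algebra.adjoin K {f | ∃ D : Derivation K B B, IsLND D ∧ HasSlice D ∧ D f = 0}

/-- The ideal generated by the images of all locally nilpotent derivations. -/
def lndIdeal (K R : Type*) [CommRing K] [CommRing R] [Algebra K R] : Ideal R :=
  Ideal.span {g | ∃ (D : Derivation K R R) (f : R), IsLND D ∧ D f = g}

/-- `R` is rigid: zero is the only locally nilpotent derivation. -/
def IsRigid (K R : Type*) [CommRing K] [CommRing R] [Algebra K R] : Prop :=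
  ∀ D : Derivation K R R, IsLND D → D = 0

/-- `R` is of type B: it is not rigid and the modified Derksen invariant of `R[u]` is proper. -/
def IsTypeB (K R : Type*) [CommRing K] [CommRing R] [Algebra K R] : Prop :=
  ¬ IsRigid K R ∧ HDstar K R[X] ≠ ⊤

end Pool.Agent.Work.MP_eab3e1_ag
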