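import Mathlib
import Pool.Agent.Work.MP_eab3e1_ag.Defs

set_option autoImplicit false

namespace Pool.Agent.Work.MP_eab3e1_ag

open Polynomial

universe u

section general

variable {K B : Type*} [Field K] [CommRing B] [Algebra K B]

theorem iter_mul (D : Derivation K B B) (f g : B) (n : ℕ) :
    (⇑D)^[n] (f * g) = ∑ p ∈ Finset.HasAntidiagonal.antidiagonal n,
      n.choose p.1 • ((⇑D)^[p.1] f * (⇑D)^[p.2] g) := by
  induction n with
  | zero => simp
  | succ n ih =>
    rw [Function.iterate_succ_apply', ih, map_sum]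
    rw [Finset.sum_antidiagonal_choose_succ_nsmul
      (fun i j => (⇑D)^[i] f * (⇑D)^[j] g) n, ← Finset.sum_add_distrib]
    refine Finset.sum_congr rfl (fun p hp => ?_)
    have e : p.1 + p.2 = n := Finset.HasAntidiagonal.mem_antidiagonal.mp hp
    have e2 : n.choose p.2 = n.choose p.1 := by
      rw [← e]; exact (Nat.choose_symm_add).symm
    rw [e2, map_nsmul, D.leibniz, ← nsmul_add]
    congr 1
    rw [Function.iterate_succ_apply', Function.iterate_succ_apply', smul_eq_mul, smul_eq_mul]
    ring

theorem iter_zero_of_le (D : Derivation K B B) (f : B) (n m : ℕ) (h : (⇑D)^[n] f = 0)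
    (hnm : n ≤ m) : (⇑D)^[m] f = 0 := by
  obtain ⟨k, rfl⟩ := Nat.exists_eq_add_of_le hnm
  rw [Nat.add_comm, Function.iterate_add_apply, h]
  clear hnm
  induction k with
  | zero => rfl
  | succ k ih => rw [Function.iterate_succ_apply', ih, map_zero]

theorem iter_add (D : Derivation K B B) (f g : B) (n : ℕ) :
    (⇑D)^[n] (f + g) = (⇑D)^[n] f + (⇑D)^[n] g := by
  induction n with
  | zero => rfl
  | succ n ih => rw [Function.iterate_succ_apply', Function.iterate_succ_apply',
      Function.iterate_succ_apply', ih, map_add]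

theorem nil_mul (D : Derivation K B B) (f g : B) (hf : ∃ n : ℕ, (⇑D)^[n] f = 0)
    (hg : ∃ n : ℕ, (⇑D)^[n] g = 0) : ∃ n : ℕ, (⇑D)^[n] (f * g) = 0 := by
  obtain ⟨n, hn⟩ := hf
  obtain ⟨m, hm⟩ := hg
  refine ⟨n + m, ?_⟩
  rw [iter_mul]
  refine Finset.sum_eq_zero (fun p hp => ?_)
  have e : p.1 + p.2 = n + m := Finset.HasAntidiagonal.mem_antidiagonal.mp hp
  rcases le_or_gt n p.1 with h | h
  · rw [iter_zero_of_le D f n _ hn h, zero_mul, smul_zero]
  · rw [iter_zero_of_le D g m _ hm (by omega), mul_zero, smul_zero]

theorem nil_add (D : Derivation K B B) (f g : B) (hf : ∃ n : ℕ, (⇑D)^[n] f = 0)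
    (hg : ∃ n : ℕ, (⇑D)^[n] g = 0) : ∃ n : ℕ, (⇑D)^[n] (f + g) = 0 := by
  obtain ⟨n, hn⟩ := hf
  obtain ⟨m, hm⟩ := hg
  refine ⟨n + m, ?_⟩
  rw [iter_add, iter_zero_of_le D f n _ hn (by omega), iter_zero_of_le D g m _ hm (by omega),
    add_zero]

/-- a locally nilpotent derivation of a domain kills all units -/
theorem lnd_unit [CharZero K] [IsDomain B] (D : Derivation K B B) (hD : IsLND D) (x y : B)
    (hxy : x * y = 1) : D x = 0 := by
  classical
  have hx0 : x ≠ 0 := left_ne_zero_of_mul_eq_one hxy
  have hy0 : y ≠ 0 := right_ne_zero_of_mul_eq_one hxy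
  have key : ∀ z : B, z ≠ 0 → ∃ n : ℕ, (⇑D)^[n] z ≠ 0 ∧ (⇑D)^[n + 1] z = 0 := by
    intro z hz
    have h1 := Nat.find_spec (hD z)
    have h2 : Nat.find (hD z) ≠ 0 := by
      intro h
      rw [h] at h1
      exact hz h1
    refine ⟨Nat.find (hD z) - 1, ?_, ?_⟩
    · exact Nat.find_min (hD z) (by omega)
    · have : Nat.find (hD z) - 1 + 1 = Nat.find (hD z) := by omega
      rw [this]
      exact h1
  obtain ⟨n, hn1, hn2⟩ := key x hx0
  obtain ⟨m, hm1, hm2⟩ := key y hy0
  have h : (⇑D)^[n + m] (x * y) = (n + m).choose n • ((⇑D)^[n] x * (⇑D)^[m] y) := by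
    rw [iter_mul]
    rw [Finset.sum_eq_single (n, m)]
    · intro p hp hne
      have e : p.1 + p.2 = n + m := Finset.HasAntidiagonal.mem_antidiagonal.mp hp
      rcases lt_trichotomy p.1 n with h | h | h
      · rw [iter_zero_of_le D y (m + 1) _ hm2 (by omega), mul_zero, smul_zero]
      · exfalso
        apply hne
        ext
        · exact h
        · simp only; omega
      · rw [iter_zero_of_le D x (n + 1) _ hn2 (by omega), zero_mul, smul_zero]
    · intro h
      exact absurd (by rw [Finset.HasAntidiagonal.mem_antidiagonal]) h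
  have hne : (⇑D)^[n + m] (x * y) ≠ 0 := by
    rw [h]
    have hc : ((n + m).choose n : K) ≠ 0 := by
      exact_mod_cast (Nat.choose_pos (by omega)).ne'
    rw [nsmul_eq_mul]
    have hc' : (((n + m).choose n : ℕ) : B) ≠ 0 := by
      intro h0
      apply hc
      have : algebraMap K B ((n + m).choose n : K) = 0 := by
        rw [map_natCast, h0]
      exact (map_eq_zero_iff _ (algebraMap K B).injective).mp this
    exact mul_ne_zero hc' (mul_ne_zero hn1 hm1)
  rw [hxy] at hne
  have hnm : n + m = 0 := by
    by_contra hcon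
    apply hne
    exact iter_zero_of_le D 1 1 _ (by simp) (by omega)
  have hn0 : n = 0 := by omega
  subst hn0
  simpa using hn2

end general

section concrete

variable (K : Type*) [Field K]

/-- `t - 1` -/
noncomputable def la : LaurentPolynomial K := LaurentPolynomial.T 1 - 1

/-- `t + 1` -/
noncomputable def lb : LaurentPolynomial K := LaurentPolynomial.T 1 + 1

/-- the polynomial `ab(ay - b)` in `K[t, t⁻¹][y]` -/
noncomputable def cc : (LaurentPolynomial K)[X] :=
  C (la K) * C (lb K) * (C (la K) * X - C (lb K))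

/-- evaluation of Laurent polynomials at a unit -/
noncomputable def evL (x : Kˣ) : LaurentPolynomial K →+* K :=
  LaurentPolynomial.eval₂ (RingHom.id K) x

theorem evL_la (x : Kˣ) : evL K x (la K) = (x : K) - 1 := by
  unfold evL la
  rw [map_sub, map_one, LaurentPolynomial.eval₂_T]
  simp

theorem evL_lb (x : Kˣ) : evL K x (lb K) = (x : K) + 1 := by
  unfold evL lb
  rw [map_add, map_one, LaurentPolynomial.eval₂_T]
  simp

theorem la_ne [CharZero K] : la K ≠ 0 := by
  intro h
  have := evL_la K (-1)
  rw [h, map_zero] at this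
  norm_num at this

theorem lb_ne [CharZero K] : lb K ≠ 0 := by
  intro h
  have := evL_lb K 1
  rw [h, map_zero] at this
  norm_num at this

theorem cc_eq : cc K = C (la K * lb K * la K) * X + C (-(la K * lb K * lb K)) := by
  unfold cc
  simp only [map_mul, map_neg]
  ring

theorem natDegree_cc [CharZero K] : (cc K).natDegree = 1 := by
  rw [cc_eq]
  apply natDegree_linear
  exact mul_ne_zero (mul_ne_zero (la_ne K) (lb_ne K)) (la_ne K)

theorem cc_ne [CharZero K] : cc K ≠ 0 := by
  intro h
  have := natDegree_cc K
  rw [h] at this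
  simp at this

/-- the ring `K[t, t⁻¹][y][z] / (z² - ab(ay - b))` -/
def RR := QuadraticAlgebra ((LaurentPolynomial K)[X]) (cc K) 0

noncomputable instance instCR : CommRing (RR K) :=
  inferInstanceAs (CommRing (QuadraticAlgebra ((LaurentPolynomial K)[X]) (cc K) 0))

variable {K}

/-- the first component -/
def re (x : RR K) : (LaurentPolynomial K)[X] := QuadraticAlgebra.re x

/-- the second component -/
def im (x : RR K) : (LaurentPolynomial K)[X] := QuadraticAlgebra.im x

/-- the element `p + q z` -/
def mk (p q : (LaurentPolynomial K)[X]) : RR K := QuadraticAlgebra.mk p q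

theorem re_mk (p q : (LaurentPolynomial K)[X]) : re (mk p q) = p := rfl

theorem im_mk (p q : (LaurentPolynomial K)[X]) : im (mk p q) = q := rfl

theorem rr_ext {x y : RR K} (h1 : re x = re y) (h2 : im x = im y) : x = y :=
  QuadraticAlgebra.ext h1 h2

theorem re_add (x y : RR K) : re (x + y) = re x + re y := rfl

theorem im_add (x y : RR K) : im (x + y) = im x + im y := rfl

theorem re_neg (x : RR K) : re (-x) = -re x := rfl

theorem im_neg (x : RR K) : im (-x) = -im x := rfl

theorem re_sub (x y : RR K) : re (x - y) = re x - re y := rfl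

theorem im_sub (x y : RR K) : im (x - y) = im x - im y := rfl

theorem re_zero : re (0 : RR K) = 0 := rfl

theorem im_zero : im (0 : RR K) = 0 := rfl

theorem re_one : re (1 : RR K) = 1 := rfl

theorem im_one : im (1 : RR K) = 0 := rfl

theorem re_mul (x y : RR K) : re (x * y) = re x * re y + cc K * im x * im y := rfl

theorem im_mul (x y : RR K) : im (x * y) = re x * im y + im x * re y := by
  change re x * im y + im x * re y + 0 * im x * im y = _
  ring

/-- the structure map -/
noncomputable def al : (LaurentPolynomial K)[X] →+* RR K where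
  toFun p := mk p 0
  map_one' := rfl
  map_zero' := rfl
  map_add' p q := by
    apply rr_ext
    · rw [re_add]; rfl
    · rw [im_add]; change (0 : (LaurentPolynomial K)[X]) = 0 + 0; rw [add_zero]
  map_mul' p q := by
    apply rr_ext
    · rw [re_mul]; change p * q = p * q + cc K * 0 * 0; ring
    · rw [im_mul]; change (0 : (LaurentPolynomial K)[X]) = p * 0 + 0 * q; ring

theorem re_al (p : (LaurentPolynomial K)[X]) : re (al p) = p := rfl

theorem im_al (p : (LaurentPolynomial K)[X]) : im (al p) = 0 := rfl

variable (K)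

noncomputable instance instAlg : Algebra K (RR K) :=
  ((al (K := K)).comp (algebraMap K ((LaurentPolynomial K)[X]))).toAlgebra

/-- the structure map of Laurent polynomials -/
noncomputable def j1 : LaurentPolynomial K →+* RR K := (al (K := K)).comp C

theorem j1_algebraMap (r : K) : j1 K (algebraMap K _ r) = algebraMap K (RR K) r := rfl

theorem re_smul (r : K) (x : RR K) : re (r • x) = r • re x := by
  rw [Algebra.smul_def, re_mul]
  change algebraMap K _ r * re x + cc K * 0 * im x = _
  rw [Algebra.smul_def]
  ring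

theorem im_smul (r : K) (x : RR K) : im (r • x) = r • im x := by
  rw [Algebra.smul_def, im_mul]
  change algebraMap K _ r * im x + 0 * re x = _
  rw [Algebra.smul_def]
  ring

/-- the norm -/
noncomputable def nm (x : RR K) : (LaurentPolynomial K)[X] := re x * re x - cc K * (im x * im x)

theorem nm_mul (x y : RR K) : nm K (x * y) = nm K x * nm K y := by
  unfold nm
  rw [re_mul, im_mul]
  ring

theorem norm_ne [CharZero K] (x : RR K) (h : nm K x = 0) : x = 0 := by
  unfold nm at h
  have h1 : re x * re x = cc K * (im x * im x) := by linear_combination h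
  have him : im x = 0 := by
    by_contra him
    have hre : re x ≠ 0 := by
      intro hre
      rw [hre, zero_mul] at h1
      exact mul_ne_zero (cc_ne K) (mul_ne_zero him him) h1.symm
    have h2 := congrArg natDegree h1
    rw [natDegree_mul hre hre, natDegree_mul (cc_ne K) (mul_ne_zero him him),
      natDegree_mul him him, natDegree_cc] at h2
    omega
  have hre : re x = 0 := by
    rw [him, mul_zero, mul_zero] at h1
    exact mul_self_eq_zero.mp h1
  exact rr_ext hre him

instance instDom [CharZero K] : IsDomain (RR K) := by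
  have : NoZeroDivisors (RR K) := by
    constructor
    intro x y hxy
    have : nm K x * nm K y = 0 := by
      rw [← nm_mul, hxy]
      unfold nm
      rw [re_zero, im_zero]
      ring
    rcases mul_eq_zero.mp this with h | h
    · exact Or.inl (norm_ne K x h)
    · exact Or.inr (norm_ne K y h)
  have : Nontrivial (RR K) := ⟨⟨0, 1, fun h => by
    have := congrArg re h
    rw [re_zero, re_one] at this
    exact zero_ne_one this⟩⟩
  exact NoZeroDivisors.to_isDomain _

/-- ring homomorphisms out of `A[z]/(z² - c)` -/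
noncomputable def qlift {S : Type*} [CommRing S] (i : (LaurentPolynomial K)[X] →+* S) (x : S)
    (hx : x * x = i (cc K)) : RR K →+* S where
  toFun r := i (re r) + i (im r) * x
  map_one' := by
    rw [re_one, im_one, map_one, map_zero]
    ring
  map_zero' := by
    rw [re_zero, im_zero, map_zero]
    ring
  map_add' r s := by
    rw [re_add, im_add, map_add, map_add]
    ring
  map_mul' r s := by
    rw [re_mul, im_mul]
    simp only [map_add, map_mul]
    linear_combination (-(i (im r) * i (im s))) * hx

theorem qlift_apply {S : Type*} [CommRing S] (i : (LaurentPolynomial K)[X] →+* S) (x : S)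
    (hx : x * x = i (cc K)) (r : RR K) : qlift K i x hx r = i (re r) + i (im r) * x := rfl

/-- the element `y` -/
noncomputable def yy : RR K := al X

/-- the element `z` -/
noncomputable def zz : RR K := mk 0 1

theorem q_decomp (r : RR K) : r = al (re r) + al (im r) * zz K := by
  apply rr_ext
  · rw [re_add, re_mul, re_al, re_al, im_al]
    change re r = re r + (im r * 0 + cc K * 0 * 1)
    ring
  · rw [im_add, im_mul, im_al, im_al, re_al]
    change im r = 0 + (im r * 1 + 0 * 0)
    ring

/-- a derivation killing the coefficients -/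
theorem der_poly {Lm B : Type*} [CommRing Lm] [CommRing B] [Algebra K B]
    (D : Derivation K B B) (i : Lm[X] →+* B) (h : ∀ f : Lm, D (i (C f)) = 0) (p : Lm[X]) :
    D (i p) = i (derivative p) * D (i X) := by
  induction p using Polynomial.induction_on' with
  | add p q hp hq => rw [map_add, map_add, hp, hq, derivative_add, map_add, add_mul]
  | monomial n f =>
    rw [← C_mul_X_pow_eq_monomial, map_mul, map_pow, D.leibniz, h, smul_zero, add_zero,
      D.leibniz_pow, derivative_C_mul_X_pow]
    simp only [smul_eq_mul, nsmul_eq_mul, map_mul, map_pow, map_natCast]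
    ring

theorem lnd_kills [CharZero K] {B : Type*} [CommRing B] [IsDomain B] [Algebra K B]
    (j : LaurentPolynomial K →+* B) (hj : ∀ r : K, j (algebraMap K _ r) = algebraMap K B r)
    (D : Derivation K B B) (hD : IsLND D) (f : LaurentPolynomial K) : D (j f) = 0 := by
  induction f using LaurentPolynomial.induction_on' with
  | add p q hp hq => rw [map_add, map_add, hp, hq, add_zero]
  | C_mul_T n r =>
    rw [map_mul, LaurentPolynomial.C_eq_algebraMap, hj, D.leibniz, D.map_algebraMap, smul_zero,
      add_zero]
    have : D (j (LaurentPolynomial.T n)) = 0 := by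
      apply lnd_unit D hD _ (j (LaurentPolynomial.T (-n)))
      rw [← map_mul, ← LaurentPolynomial.T_add, add_neg_cancel, LaurentPolynomial.T_zero, map_one]
    rw [this, smul_zero]

theorem zz_sq : zz K * zz K = al (cc K) := by
  apply rr_ext
  · rw [re_mul]
    change (0 : (LaurentPolynomial K)[X]) * 0 + cc K * 1 * 1 = cc K
    ring
  · rw [im_mul]
    change (0 : (LaurentPolynomial K)[X]) * 1 + 1 * 0 = 0
    ring

theorem der_cc : derivative (cc K) = C (la K * lb K * la K) := by
  rw [cc_eq]
  simp

theorem zz_sq' : zz K * zz K = j1 K (la K) * j1 K (lb K) * (j1 K (la K) * yy K - j1 K (lb K)) := by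
  rw [zz_sq]
  unfold cc j1 yy
  simp only [map_mul, map_sub, RingHom.comp_apply]

/-- derivations of the ring that kill `t` -/
theorem der_RR (D : Derivation K (RR K) (RR K)) (h : ∀ f, D (j1 K f) = 0) (r : RR K) :
    D r = al (derivative (re r)) * D (yy K) +
      (al (derivative (im r)) * D (yy K) * zz K + al (im r) * D (zz K)) := by
  conv_lhs => rw [q_decomp K r]
  have e : ∀ p : (LaurentPolynomial K)[X], D (al p) = al (derivative p) * D (yy K) := fun p =>
    der_poly K D al h p
  rw [map_add, D.leibniz, e, e]
  simp only [smul_eq_mul]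
  ring

theorem rel_RR (D : Derivation K (RR K) (RR K)) (h : ∀ f, D (j1 K f) = 0) :
    al (C (la K * lb K * la K)) * D (yy K) = 2 * zz K * D (zz K) := by
  have e : D (al (cc K)) = al (derivative (cc K)) * D (yy K) := der_poly K D al h _
  rw [← zz_sq, D.leibniz, der_cc] at e
  rw [← e, smul_eq_mul]
  ring

/-- the fraction field of Laurent polynomials -/
abbrev LL := FractionRing (LaurentPolynomial K)

instance [CharZero K] : CharZero (LL K) :=
  charZero_of_injective_algebraMap (algebraMap K (LL K)).injective

/-- the image of `y` in `L[Z]` -/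
noncomputable def yh : (LL K)[X] :=
  C ((algebraMap _ (LL K) (la K * lb K * la K))⁻¹) * (X ^ 2 +
    C (algebraMap _ (LL K) (la K * lb K * lb K)))

/-- the embedding of coefficients -/
noncomputable def iA : (LaurentPolynomial K)[X] →+* (LL K)[X] :=
  eval₂RingHom (C.comp (algebraMap _ (LL K))) (yh K)

theorem iA_C (f : LaurentPolynomial K) : iA K (C f) = C (algebraMap _ (LL K) f) := by
  simp [iA]

theorem iA_X : iA K X = yh K := by
  simp [iA]

theorem iA_eq (p : (LaurentPolynomial K)[X]) :
    iA K p = (p.map (algebraMap _ (LL K))).comp (yh K) := by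
  simp only [iA, coe_eval₂RingHom, comp, eval₂_map]

theorem al_ne [CharZero K] : algebraMap _ (LL K) (la K * lb K * la K) ≠ 0 := by
  intro h
  have := (map_eq_zero_iff _ (IsFractionRing.injective (LaurentPolynomial K) (LL K))).mp h
  exact mul_ne_zero (mul_ne_zero (la_ne K) (lb_ne K)) (la_ne K) this

theorem iA_cc [CharZero K] : (X : (LL K)[X]) * X = iA K (cc K) := by
  rw [cc_eq, map_add, map_mul, iA_C, iA_C, iA_X, yh, map_neg, C_neg]
  have h : C (algebraMap _ (LL K) (la K * lb K * la K)) *
      C ((algebraMap _ (LL K) (la K * lb K * la K))⁻¹) = 1 := by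
    rw [← C_mul, mul_inv_cancel₀ (al_ne K), C_1]
  linear_combination (-(X ^ 2 + C (algebraMap _ (LL K) (la K * lb K * lb K)))) * h

/-- the embedding of the ring into `L[Z]` -/
noncomputable def io [CharZero K] : RR K →+* (LL K)[X] := qlift K (iA K) X (iA_cc K)

theorem io_mk [CharZero K] (r : RR K) : io K r = iA K (re r) + iA K (im r) * X := rfl

theorem io_alg [CharZero K] (p : (LaurentPolynomial K)[X]) : io K (al p) = iA K p := by
  rw [io_mk, re_al, im_al, map_zero, zero_mul, add_zero]

theorem io_zz [CharZero K] : io K (zz K) = X := by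
  rw [io_mk]
  change iA K 0 + iA K 1 * X = X
  simp

theorem der_yh [CharZero K] : C (algebraMap _ (LL K) (la K * lb K * la K)) * derivative (yh K)
    = 2 * X := by
  have h : C (algebraMap _ (LL K) (la K * lb K * la K)) *
      C ((algebraMap _ (LL K) (la K * lb K * la K))⁻¹) = 1 := by
    rw [← C_mul, mul_inv_cancel₀ (al_ne K), C_1]
  have e : derivative (yh K) = C ((algebraMap _ (LL K) (la K * lb K * la K))⁻¹) * (2 * X) := by
    unfold yh
    rw [derivative_C_mul]
    simp
    left
    norm_num
  rw [e]
  linear_combination (2 * X) * h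

theorem der_iA (p : (LaurentPolynomial K)[X]) :
    derivative (iA K p) = iA K (derivative p) * derivative (yh K) := by
  rw [iA_eq, iA_eq, derivative_comp, derivative_map, mul_comm]

theorem io_D [CharZero K] (D : Derivation K (RR K) (RR K)) (h : ∀ f, D (j1 K f) = 0) (r : RR K) :
    io K (D r) = io K (D (zz K)) * derivative (io K r) := by
  have e1 : io K (D (yy K)) = io K (D (zz K)) * derivative (yh K) := by
    have h1 := congrArg (io K) (rel_RR K D h)
    rw [map_mul (io K), io_alg, iA_C, map_mul (io K), map_mul (io K), io_zz, map_ofNat] at h1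
    have h2 := der_yh K
    have hne : C (algebraMap _ (LL K) (la K * lb K * la K)) ≠ 0 := by
      rw [Ne, C_eq_zero]; exact al_ne K
    apply mul_left_cancel₀ hne
    linear_combination h1 - io K (D (zz K)) * h2
  rw [der_RR K D h r]
  conv_rhs => rw [io_mk K r]
  simp only [map_add, map_mul, derivative_mul, der_iA, io_alg, io_zz, e1,
    derivative_X]
  ring

theorem natDegree_yh [CharZero K] : (yh K).natDegree = 2 := by
  unfold yh
  rw [natDegree_C_mul (inv_ne_zero (al_ne K))]
  exact natDegree_X_pow_add_C

/-- the key fact: `D z` has no `z`-part -/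
theorem im_Dz [CharZero K] (D : Derivation K (RR K) (RR K)) (hD : IsLND D) :
    im (D (zz K)) = 0 := by
  have h : ∀ f, D (j1 K f) = 0 := lnd_kills K (j1 K) (j1_algebraMap K) D hD
  have hdeg : (io K (D (zz K))).natDegree = 0 := by
    by_contra hcon
    have hpos : 1 ≤ (io K (D (zz K))).natDegree := by omega
    have hind : ∀ n : ℕ, 1 ≤ (io K ((⇑D)^[n] (zz K))).natDegree := by
      intro n
      induction n with
      | zero => simp [io_zz]
      | succ n ih =>
        rw [Function.iterate_succ_apply', io_D K D h]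
        have h1 : derivative (io K ((⇑D)^[n] (zz K))) ≠ 0 := by
          intro h0
          have := Polynomial.derivative_eq_zero.mp h0
          omega
        have h2 : io K (D (zz K)) ≠ 0 := by
          intro h0
          rw [h0] at hpos
          simp at hpos
        rw [natDegree_mul h2 h1]
        omega
    obtain ⟨n, hn⟩ := hD (zz K)
    have := hind n
    rw [hn] at this
    simp at this
  have hev : (io K (D (zz K))).comp (-X) = io K (D (zz K)) := by
    rw [eq_C_of_natDegree_eq_zero hdeg]
    simp
  have hyh : (yh K).comp (-X) = yh K := by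
    unfold yh
    rw [mul_comp, add_comp, C_comp, pow_comp, X_comp, C_comp]
    ring
  have hiA : ∀ p, (iA K p).comp (-X) = iA K p := by
    intro p
    rw [iA_eq, comp_assoc, hyh]
  rw [io_mk, add_comp, mul_comp, hiA, hiA, X_comp] at hev
  have h2 : iA K (im (D (zz K))) * X = 0 := by
    have : (2 : (LL K)[X]) * (iA K (im (D (zz K))) * X) = 0 := by linear_combination -hev
    rcases mul_eq_zero.mp this with h | h
    · exact absurd h two_ne_zero
    · exact h
  have h3 : iA K (im (D (zz K))) = 0 := by
    rcases mul_eq_zero.mp h2 with h | h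
    · exact h
    · exact absurd h X_ne_zero
  rw [iA_eq, comp_eq_zero_iff] at h3
  rcases h3 with h3 | ⟨-, h3⟩
  · rw [Polynomial.map_eq_zero_iff (IsFractionRing.injective (LaurentPolynomial K) (LL K))] at h3
    exact h3
  · exfalso
    have := natDegree_yh K
    rw [h3, natDegree_C] at this
    omega

/-- the ideal `(a, z)` -/
noncomputable def I0 : Ideal (RR K) where
  carrier := {r | C (la K) ∣ re r}
  add_mem' := by
    intro r s hr hs
    exact dvd_add hr hs
  zero_mem' := by
    change C (la K) ∣ re (0 : RR K)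
    rw [re_zero]
    exact dvd_zero _
  smul_mem' := by
    intro c r hr
    change C (la K) ∣ re (c * r)
    rw [re_mul]
    refine dvd_add (Dvd.dvd.mul_left hr _) ?_
    refine Dvd.dvd.mul_right (Dvd.dvd.mul_right ?_ _) _
    unfold cc
    exact Dvd.dvd.mul_right (Dvd.dvd.mul_right dvd_rfl _) _

theorem two_isUnit [CharZero K] : IsUnit (2 : (LaurentPolynomial K)[X]) := by
  have : (2 : (LaurentPolynomial K)[X]) = algebraMap K _ 2 := by
    rw [map_ofNat]
  rw [this]
  exact (isUnit_iff_ne_zero.mpr two_ne_zero).map _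

theorem comp_rel (B C' : RR K) (h : al (C (la K * lb K * la K)) * B = 2 * zz K * C') :
    C (la K * lb K * la K) * re B = 2 * (cc K * im C') ∧
    C (la K * lb K * la K) * im B = 2 * re C' := by
  have e0 : 2 * zz K * C' = zz K * C' + zz K * C' := by ring
  rw [e0] at h
  constructor
  · have hre := congrArg re h
    rw [re_mul, re_add, re_mul, re_al, im_al] at hre
    change C (la K * lb K * la K) * re B + cc K * 0 * im B =
      (0 * re C' + cc K * 1 * im C') + (0 * re C' + cc K * 1 * im C') at hre
    linear_combination hre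
  · have him := congrArg im h
    rw [im_mul, im_add, im_mul, re_al, im_al] at him
    change C (la K * lb K * la K) * im B + 0 * re B =
      (0 * im C' + 1 * re C') + (0 * im C' + 1 * re C') at him
    linear_combination him

theorem lndIdeal_le [CharZero K] : lndIdeal K (RR K) ≤ I0 K := by
  unfold lndIdeal
  rw [Ideal.span_le]
  rintro g ⟨D, f, hD, rfl⟩
  have h : ∀ f, D (j1 K f) = 0 := lnd_kills K (j1 K) (j1_algebraMap K) D hD
  have hz := im_Dz K D hD
  obtain ⟨hre, him⟩ := comp_rel K _ _ (rel_RR K D h)
  rw [hz, mul_zero, mul_zero] at hre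
  have hC : C (la K * lb K * la K) ≠ 0 := by
    rw [Ne, C_eq_zero]
    exact mul_ne_zero (mul_ne_zero (la_ne K) (lb_ne K)) (la_ne K)
  have hy0 : re (D (yy K)) = 0 := by
    rcases mul_eq_zero.mp hre with h0 | h0
    · exact absurd h0 hC
    · exact h0
  have hyI : D (yy K) ∈ I0 K := by
    change C (la K) ∣ re (D (yy K))
    rw [hy0]
    exact dvd_zero _
  have hzI : D (zz K) ∈ I0 K := by
    change C (la K) ∣ re (D (zz K))
    have h1 : C (la K) ∣ 2 * re (D (zz K)) := by
      rw [← him, map_mul, map_mul]
      exact Dvd.dvd.mul_right (Dvd.dvd.mul_left dvd_rfl _) _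
    exact ((two_isUnit K).dvd_mul_left).mp h1
  rw [SetLike.mem_coe, der_RR K D h f]
  refine (I0 K).add_mem ((I0 K).mul_mem_left _ hyI) ((I0 K).add_mem ?_
    ((I0 K).mul_mem_left _ hzI))
  exact (I0 K).mul_mem_right _ ((I0 K).mul_mem_left _ hyI)

end concrete

section generic

/-- presentation data -/
structure Pres (K R : Type u) [Field K] [CommRing R] [Algebra K R] where
  /-- structure map -/
  j : LaurentPolynomial K →+* R
  hj : ∀ r : K, j (algebraMap K _ r) = algebraMap K R r
  /-- the element y -/
  y : R
  /-- the element z -/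
  z : R
  rel : z * z = j (la K) * j (lb K) * (j (la K) * y - j (lb K))
  gen : ∀ S : Subring R, (∀ f, j f ∈ S) → y ∈ S → z ∈ S → ∀ r, r ∈ S
  lift : ∀ (S : Type u) [CommRing S] (i : LaurentPolynomial K →+* S) (y' z' : S),
    z' * z' = i (la K) * i (lb K) * (i (la K) * y' - i (lb K)) →
    ∃ f : R →+* S, (∀ x, f (j x) = i x) ∧ f y = y' ∧ f z = z'
  jne : j (la K) ≠ 0

variable {K R : Type u} [Field K] [CommRing R] [Algebra K R] (P : Pres K R)

/-- `a` in `R[u]` -/
noncomputable def Pa : R[X] := C (P.j (la K))

/-- `b` in `R[u]` -/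
noncomputable def Pb : R[X] := C (P.j (lb K))

/-- `θ = a y - 2 z u + a b u²` -/
noncomputable def th : R[X] := Pa P * C P.y - 2 * C P.z * X + Pa P * Pb P * X ^ 2

/-- `ω = y z - 2 b (a y - b) u + b z u²` -/
noncomputable def om : R[X] :=
  C P.y * C P.z - 2 * Pb P * (Pa P * C P.y - Pb P) * X + Pb P * C P.z * X ^ 2

theorem Czz_sq : (C P.z : R[X]) * C P.z = Pa P * Pb P * (Pa P * C P.y - Pb P) := by
  rw [← C_mul, P.rel]
  simp only [Pa, Pb, C_mul, C_sub]

theorem zth : C P.z * th P = Pa P * om P := by
  unfold th om
  linear_combination (-2 * X) * Czz_sq P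

theorem exists_phR (s : ℤ) : ∃ f : R →+* R[X], (∀ x, f (P.j x) = C (P.j x)) ∧
    f P.y = C P.y + 2 * (s : R[X]) * om P + (s : R[X]) ^ 2 * Pb P * th P ^ 2 ∧
    f P.z = C P.z + (s : R[X]) * Pa P * Pb P * th P := by
  apply P.lift R[X] (RingHom.comp C P.j)
  change _ = Pa P * Pb P * (Pa P * _ - Pb P)
  linear_combination Czz_sq P + (2 * (s : R[X]) * Pa P * Pb P) * zth P

/-- the automorphism on `R` -/
noncomputable def phR (s : ℤ) : R →+* R[X] := Classical.choose (exists_phR P s)

/-- the automorphism -/
noncomputable def ph (s : ℤ) : R[X] →+* R[X] :=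
  eval₂RingHom (phR P s) (X + (s : R[X]) * th P)

theorem ph_C (s : ℤ) (r : R) : ph P s (C r) = phR P s r := by simp [ph]

theorem ph_X (s : ℤ) : ph P s X = X + (s : R[X]) * th P := by simp [ph]

theorem ph_j (s : ℤ) (f : LaurentPolynomial K) : ph P s (C (P.j f)) = C (P.j f) := by
  rw [ph_C]
  exact (Classical.choose_spec (exists_phR P s)).1 f

theorem ph_yy (s : ℤ) : ph P s (C P.y) = C P.y + 2 * (s : R[X]) * om P +
    (s : R[X]) ^ 2 * Pb P * th P ^ 2 := by
  rw [ph_C]
  exact (Classical.choose_spec (exists_phR P s)).2.1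

theorem ph_zz (s : ℤ) : ph P s (C P.z) = C P.z + (s : R[X]) * Pa P * Pb P * th P := by
  rw [ph_C]
  exact (Classical.choose_spec (exists_phR P s)).2.2

theorem ph_Pa (s : ℤ) : ph P s (Pa P) = Pa P := ph_j P s _

theorem ph_Pb (s : ℤ) : ph P s (Pb P) = Pb P := ph_j P s _

theorem ph_th (s : ℤ) : ph P s (th P) = th P := by
  have h : ph P s (th P) = Pa P * ph P s (C P.y) - 2 * ph P s (C P.z) * ph P s X +
      Pa P * Pb P * (ph P s X) ^ 2 := by
    conv_lhs => unfold th
    simp only [map_add, map_sub, map_mul, map_pow, map_ofNat, ph_Pa, ph_Pb]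
  rw [h, ph_yy, ph_zz, ph_X]
  have h2 : th P = Pa P * C P.y - 2 * C P.z * X + Pa P * Pb P * X ^ 2 := rfl
  linear_combination (-2 * (s : R[X])) * zth P - h2

theorem ph_om [IsDomain R] (s : ℤ) : ph P s (om P) = om P + (s : R[X]) * Pb P * th P ^ 2 := by
  have hne : Pa P ≠ 0 := by
    unfold Pa
    rw [Ne, C_eq_zero]
    exact P.jne
  apply mul_left_cancel₀ hne
  have h := congrArg (ph P s) (zth P)
  rw [map_mul, map_mul, ph_Pa, ph_th, ph_zz] at h
  rw [← h]
  linear_combination zth P

theorem hom_ext {S : Type*} [CommRing S] (f g : R →+* S)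
    (h1 : ∀ x, f (P.j x) = g (P.j x)) (h2 : f P.y = g P.y) (h3 : f P.z = g P.z) :
    f = g := by
  ext r
  exact P.gen (RingHom.eqLocus f g) h1 h2 h3 r

theorem ph_ph [IsDomain R] (s : ℤ) (x : R[X]) : ph P s (ph P (-s) x) = x := by
  have : (ph P s).comp (ph P (-s)) = RingHom.id _ := by
    apply Polynomial.ringHom_ext'
    · apply hom_ext P
      · intro f
        change ph P s (ph P (-s) (C (P.j f))) = C (P.j f)
        rw [ph_j, ph_j]
      · change ph P s (ph P (-s) (C P.y)) = C P.y
        rw [ph_yy]
        simp only [map_add, map_mul, map_pow, map_ofNat, map_intCast, ph_Pb, ph_th, ph_om,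
          ph_yy]
        push_cast
        ring
      · change ph P s (ph P (-s) (C P.z)) = C P.z
        rw [ph_zz]
        simp only [map_add, map_mul, map_intCast, ph_Pa, ph_Pb, ph_th, ph_zz]
        push_cast
        ring
    · change ph P s (ph P (-s) X) = X
      rw [ph_X, map_add, map_mul, map_intCast, ph_th, ph_X]
      push_cast
      ring
  exact RingHom.congr_fun this x

theorem ph_alg (s : ℤ) (r : K) : ph P s (algebraMap K _ r) = algebraMap K _ r := by
  have : algebraMap K (R[X]) r = C (P.j (algebraMap K _ r)) := by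
    rw [P.hj]; rfl
  rw [this, ph_j]

/-- the conjugated derivation -/
noncomputable def Dc [IsDomain R] : Derivation K R[X] R[X] :=
  Derivation.mk'
    { toFun := fun f => ph P 1 (derivative (ph P (-1) f))
      map_add' := fun f g => by simp only [map_add]
      map_smul' := fun r f => by
        simp only [Algebra.smul_def, map_mul, ph_alg, RingHom.id_apply]
        have : derivative (algebraMap K R[X] r * ph P (-1) f) =
            algebraMap K R[X] r * derivative (ph P (-1) f) := by
          have e : algebraMap K R[X] r = C (algebraMap K R r) := rfl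
          rw [e, derivative_C_mul]
        rw [this, map_mul, ph_alg] }
    (fun f g => by
      simp only [LinearMap.coe_mk, AddHom.coe_mk, map_mul, derivative_mul, map_add, smul_eq_mul]
      have h1 := ph_ph P 1 f
      have h2 := ph_ph P 1 g
      rw [h1, h2]
      ring)

theorem Dc_apply [IsDomain R] (f : R[X]) : Dc P f = ph P 1 (derivative (ph P (-1) f)) := rfl

theorem Dc_iter [IsDomain R] (f : R[X]) (n : ℕ) :
    (⇑(Dc P))^[n] f = ph P 1 ((⇑derivative)^[n] (ph P (-1) f)) := by
  induction n with
  | zero => simp [ph_ph]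
  | succ n ih =>
    rw [Function.iterate_succ_apply', ih, Dc_apply, Function.iterate_succ_apply']
    have h := ph_ph P (-1) ((⇑derivative)^[n] (ph P (-1) f))
    rw [neg_neg] at h
    rw [h]

theorem Dc_lnd [IsDomain R] : IsLND (Dc P) := by
  intro f
  refine ⟨(ph P (-1) f).natDegree + 1, ?_⟩
  rw [Dc_iter, iterate_derivative_eq_zero (Nat.lt_succ_self _), map_zero]

theorem Dc_slice [IsDomain R] : HasSlice (Dc P) := by
  refine ⟨ph P 1 X, ?_⟩
  rw [Dc_apply]
  have h := ph_ph P (-1) X
  rw [neg_neg] at h
  rw [h, derivative_X, map_one]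

theorem mem_HD [IsDomain R] : ph P 1 (C P.y) ∈ HDstar K R[X] := by
  apply Algebra.subset_adjoin
  refine ⟨Dc P, Dc_lnd P, Dc_slice P, ?_⟩
  rw [Dc_apply]
  have h := ph_ph P (-1) (C P.y)
  rw [neg_neg] at h
  rw [h, derivative_C, map_zero]

theorem coeff_one : (ph P 1 (C P.y)).coeff 1 =
    -(4 * P.j (lb K) * (P.j (la K) * P.y - P.j (lb K)))
      - 4 * P.j (la K) * P.j (lb K) * P.y * P.z := by
  have e : ph P 1 (C P.y) =
      C (P.y + 2 * P.y * P.z + P.j (lb K) * (P.j (la K) * P.y) ^ 2) +
      C (-(4 * P.j (lb K) * (P.j (la K) * P.y - P.j (lb K)))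
      - 4 * P.j (la K) * P.j (lb K) * P.y * P.z) * X +
      C (2 * P.j (lb K) * P.z + P.j (lb K) * (4 * P.z ^ 2 +
        2 * (P.j (la K) * P.y) * (P.j (la K) * P.j (lb K)))) * X ^ 2 +
      C (P.j (lb K) * (-4 * P.z * (P.j (la K) * P.j (lb K)))) * X ^ 3 +
      C (P.j (lb K) * (P.j (la K) * P.j (lb K)) ^ 2) * X ^ 4 := by
    rw [ph_yy]
    unfold om th Pa Pb
    simp only [C_add, C_sub, C_mul, C_neg, C_pow]
    have h2 : (C (2 : R)) = 2 := rfl
    have h4 : (C (4 : R)) = 4 := rfl
    rw [h2, h4]
    push_cast
    ring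
  rw [e]
  simp only [coeff_add, coeff_C_mul, coeff_X_pow, coeff_X, coeff_C]
  norm_num

variable (e : R →+* K)

/-- reduction at the singular line -/
noncomputable def piP : R[X] →+* K[X] := mapRingHom e

theorem rel_D {B : Type*} [CommRing B] [Algebra K B] (i : R →+* B)
    (D : Derivation K B B) (h : ∀ f, D (i (P.j f)) = 0) :
    i (P.j (la K * lb K * la K)) * D (i P.y) = 2 * i P.z * D (i P.z) := by
  have h1 := congrArg (fun x => D (i x)) P.rel
  simp only [map_mul, map_sub, D.leibniz, smul_eq_mul, h] at h1
  rw [map_mul, map_mul, map_mul, map_mul]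
  linear_combination -h1

theorem piP_D [CharZero K] [IsDomain R]
    (he : ∀ B C' : R, P.j (la K * lb K * la K) * B = 2 * P.z * C' → e B = 0 ∧ e C' = 0)
    (D : Derivation K R[X] R[X]) (hD : IsLND D) (f : R[X]) :
    piP e (D f) = derivative (piP e f) * piP e (D X) := by
  have h : ∀ f, D (C (P.j f)) = 0 := lnd_kills K ((C : R →+* R[X]).comp P.j)
    (fun r => by rw [RingHom.comp_apply, P.hj]; rfl) D hD
  have hrel := rel_D P (C : R →+* R[X]) D h
  have hco : ∀ n, e ((D (C P.y)).coeff n) = 0 ∧ e ((D (C P.z)).coeff n) = 0 := by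
    intro n
    apply he
    have := congrArg (fun q => coeff q n) hrel
    simp only [coeff_C_mul] at this
    rw [this]
    have e : (2 : R[X]) * C P.z = C (2 * P.z) := by
      rw [C_mul]; rfl
    rw [e, coeff_C_mul]
  have hy : piP e (D (C P.y)) = 0 := by
    ext n
    simp [piP, (hco n).1]
  have hz : piP e (D (C P.z)) = 0 := by
    ext n
    simp [piP, (hco n).2]
  have hC : ∀ r : R, piP e (D (C r)) = 0 := by
    let S : Subring R :=
      { carrier := {r | piP e (D (C r)) = 0}
        mul_mem' := by
          intro r s hr hs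
          have hr' : piP e (D (C r)) = 0 := hr
          have hs' : piP e (D (C s)) = 0 := hs
          change piP e (D (C (r * s))) = 0
          rw [C_mul, D.leibniz, map_add, smul_eq_mul, smul_eq_mul, map_mul, map_mul, hr', hs']
          simp
        one_mem' := by
          change piP e (D (C 1)) = 0
          rw [C_1, D.map_one_eq_zero, map_zero]
        add_mem' := by
          intro r s hr hs
          have hr' : piP e (D (C r)) = 0 := hr
          have hs' : piP e (D (C s)) = 0 := hs
          change piP e (D (C (r + s))) = 0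
          rw [C_add, map_add, map_add, hr', hs', add_zero]
        zero_mem' := by
          change piP e (D (C 0)) = 0
          rw [C_0, map_zero, map_zero]
        neg_mem' := by
          intro r hr
          have hr' : piP e (D (C r)) = 0 := hr
          change piP e (D (C (-r))) = 0
          rw [C_neg, map_neg, map_neg, hr', neg_zero] }
    exact P.gen S (fun f => by change piP e (D (C (P.j f))) = 0; rw [h, map_zero]) hy hz
  induction f using Polynomial.induction_on' with
  | add p q hp hq => rw [map_add, map_add, hp, hq, map_add, derivative_add, add_mul]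
  | monomial n r =>
    rw [← C_mul_X_pow_eq_monomial, D.leibniz, D.leibniz_pow]
    simp only [smul_eq_mul, nsmul_eq_mul, map_add, map_mul, map_pow, hC, mul_zero, add_zero,
      map_natCast]
    have e1 : piP e (C r) = C (e r) := by simp [piP]
    have e2 : piP e X = X := by simp [piP]
    rw [e1, e2, derivative_C_mul_X_pow, C_mul]
    have e3 : (C (n : K) : K[X]) = n := by simp
    rw [e3]
    ring

theorem HD_ne_top [CharZero K] [IsDomain R]
    (he : ∀ B C' : R, P.j (la K * lb K * la K) * B = 2 * P.z * C' → e B = 0 ∧ e C' = 0) :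
    HDstar K R[X] ≠ ⊤ := by
  have hK : ∀ r : K, derivative (piP e (C (algebraMap K R r))) = 0 := by
    intro r; simp [piP]
  let S : Subalgebra K R[X] :=
    { carrier := {f | derivative (piP e f) = 0}
      mul_mem' := by
        intro f g hf hg
        have hf' : derivative (piP e f) = 0 := hf
        have hg' : derivative (piP e g) = 0 := hg
        change derivative (piP e (f * g)) = 0
        rw [map_mul, derivative_mul, hf', hg']
        ring
      add_mem' := by
        intro f g hf hg
        have hf' : derivative (piP e f) = 0 := hf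
        have hg' : derivative (piP e g) = 0 := hg
        change derivative (piP e (f + g)) = 0
        rw [map_add, derivative_add, hf', hg', add_zero]
      algebraMap_mem' := hK }
  have hle : HDstar K R[X] ≤ S := by
    apply Algebra.adjoin_le
    rintro f ⟨D, hD, ⟨s, hs⟩, hf⟩
    change derivative (piP e f) = 0
    have h1 := piP_D P e he D hD s
    have h2 := piP_D P e he D hD f
    rw [hs, map_one] at h1
    rw [hf, map_zero] at h2
    have h3 : piP e (D X) ≠ 0 := by
      intro h0
      rw [h0, mul_zero] at h1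
      exact one_ne_zero h1
    rcases mul_eq_zero.mp h2.symm with h4 | h4
    · exact h4
    · exact absurd h4 h3
  intro htop
  rw [htop] at hle
  have h1 : (X : R[X]) ∈ S := hle Algebra.mem_top
  have h2 : derivative (piP e X) = 0 := h1
  simp [piP] at h2

theorem generic_main [CharZero K] [IsDomain R]
    (he : ∀ B C' : R, P.j (la K * lb K * la K) * B = 2 * P.z * C' → e B = 0 ∧ e C' = 0)
    (hn : -(4 * P.j (lb K) * (P.j (la K) * P.y - P.j (lb K)))
      - 4 * P.j (la K) * P.j (lb K) * P.y * P.z ∉ lndIdeal K R) (hr : ¬ IsRigid K R) :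
    IsTypeB K R ∧ ∃ p ∈ HDstar K R[X], p.coeff 1 ∉ lndIdeal K R := by
  refine ⟨⟨hr, HD_ne_top P e he⟩, _, mem_HD P, ?_⟩
  rw [coeff_one]
  exact hn

end generic

section instantiate

variable (K : Type u) [Field K]

/-- evaluation at the singular point -/
noncomputable def eP : RR K →+* K :=
  qlift K (eval₂RingHom (evL K (-1)) 0) 0 (by
    unfold cc
    simp [evL_lb])

theorem eP_mk (r : RR K) : eP K r = eval₂RingHom (evL K (-1)) 0 (re r) := by
  unfold eP
  rw [qlift_apply, mul_zero, add_zero]

theorem eP_rel [CharZero K] (B C' : RR K)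
    (h : j1 K (la K * lb K * la K) * B = 2 * zz K * C') :
    eP K B = 0 ∧ eP K C' = 0 := by
  obtain ⟨hre, him⟩ := comp_rel K B C' h
  have hu : ((-1 : Kˣ) : K) = -1 := by simp
  constructor
  · rw [eP_mk]
    have h1 : C (la K) * re B = 2 * (C (la K) * X - C (lb K)) * im C' := by
      have hne : (C (la K) * C (lb K) : (LaurentPolynomial K)[X]) ≠ 0 := by
        rw [← C_mul, Ne, C_eq_zero]
        exact mul_ne_zero (la_ne K) (lb_ne K)
      apply mul_left_cancel₀ hne
      unfold cc at hre
      rw [C_mul, C_mul] at hre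
      linear_combination hre
    have h2 := congrArg (eval₂RingHom (evL K (-1)) 0) h1
    rw [map_mul, map_mul, map_mul, map_sub, map_mul] at h2
    have f1 : eval₂RingHom (evL K (-1)) 0 (C (la K)) = -2 := by
      rw [coe_eval₂RingHom, eval₂_C, evL_la, hu]; norm_num
    have f2 : eval₂RingHom (evL K (-1)) 0 (C (lb K)) = 0 := by
      rw [coe_eval₂RingHom, eval₂_C, evL_lb, hu]; norm_num
    have f3 : eval₂RingHom (evL K (-1)) 0 (X : (LaurentPolynomial K)[X]) = 0 := by
      rw [coe_eval₂RingHom, eval₂_X]
    rw [f1, f2, f3] at h2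
    have h3 : (-2 : K) * eval₂RingHom (evL K (-1)) 0 (re B) = 0 := by
      rw [h2]; ring
    rcases mul_eq_zero.mp h3 with h4 | h4
    · exact absurd h4 (by norm_num)
    · exact h4
  · rw [eP_mk]
    have h2 := congrArg (eval₂RingHom (evL K (-1)) 0) him
    simp only [map_mul] at h2
    have f2 : eval₂RingHom (evL K (-1)) 0 (C (lb K)) = 0 := by
      rw [coe_eval₂RingHom, eval₂_C, evL_lb, hu]; norm_num
    rw [f2, map_ofNat] at h2
    have h3 : (2 : K) * eval₂RingHom (evL K (-1)) 0 (re C') = 0 := by
      rw [← h2]; ring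
    rcases mul_eq_zero.mp h3 with h4 | h4
    · exact absurd h4 (by norm_num)
    · exact h4

theorem j1_ne [CharZero K] : j1 K (la K) ≠ 0 := by
  intro h1
  have h2 : (C (la K) : (LaurentPolynomial K)[X]) = 0 := congrArg re h1
  exact la_ne K (C_eq_zero.mp h2)

theorem lift_gen {S : Type*} [CommRing S] (i : LaurentPolynomial K →+* S) (y' z' : S)
    (h : z' * z' = i (la K) * i (lb K) * (i (la K) * y' - i (lb K))) :
    ∃ f : RR K →+* S, (∀ x, f (j1 K x) = i x) ∧ f (yy K) = y' ∧ f (zz K) = z' := by
  have hx : z' * z' = eval₂RingHom i y' (cc K) := by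
    rw [h]
    unfold cc
    rw [map_mul, map_mul, map_sub, map_mul]
    simp only [coe_eval₂RingHom, eval₂_C, eval₂_X]
  refine ⟨qlift K (eval₂RingHom i y') z' hx, ?_, ?_, ?_⟩
  · intro x
    rw [qlift_apply]
    change eval₂RingHom i y' (C x) + eval₂RingHom i y' 0 * z' = _
    rw [map_zero, zero_mul, add_zero, coe_eval₂RingHom, eval₂_C]
  · rw [qlift_apply]
    change eval₂RingHom i y' X + eval₂RingHom i y' 0 * z' = _
    rw [map_zero, zero_mul, add_zero, coe_eval₂RingHom, eval₂_X]
  · rw [qlift_apply]
    change eval₂RingHom i y' 0 + eval₂RingHom i y' 1 * z' = _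
    rw [map_zero, zero_add, map_one, one_mul]

theorem gen_RR (S : Subring (RR K)) (h1 : ∀ f, j1 K f ∈ S) (h2 : yy K ∈ S) (h3 : zz K ∈ S)
    (r : RR K) : r ∈ S := by
  have hA : ∀ p : (LaurentPolynomial K)[X], al p ∈ S := by
    intro p
    induction p using Polynomial.induction_on' with
    | add p q hp hq => rw [map_add]; exact S.add_mem hp hq
    | monomial n f =>
      rw [← C_mul_X_pow_eq_monomial, map_mul, map_pow]
      exact S.mul_mem (h1 f) (S.pow_mem h2 n)
  rw [q_decomp K r]
  exact S.add_mem (hA _) (S.mul_mem (hA _) h3)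

/-- the presentation of the concrete ring -/
noncomputable def Pc [CharZero K] : Pres K (RR K) where
  j := j1 K
  hj := j1_algebraMap K
  y := yy K
  z := zz K
  rel := zz_sq' K
  gen := gen_RR K
  lift := fun _ _ i y' z' h => lift_gen K i y' z' h
  jne := j1_ne K

theorem not_mem [CharZero K] : -(4 * j1 K (lb K) * (j1 K (la K) * yy K - j1 K (lb K)))
      - 4 * j1 K (la K) * j1 K (lb K) * yy K * zz K ∉ lndIdeal K (RR K) := by
  intro h
  have h1 : C (la K) ∣ re (-(4 * j1 K (lb K) * (j1 K (la K) * yy K - j1 K (lb K)))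
      - 4 * j1 K (la K) * j1 K (lb K) * yy K * zz K) := lndIdeal_le K h
  have e : re (-(4 * j1 K (lb K) * (j1 K (la K) * yy K - j1 K (lb K)))
      - 4 * j1 K (la K) * j1 K (lb K) * yy K * zz K) =
      -(4 * C (lb K) * (C (la K) * X - C (lb K))) := by
    have e1 : -(4 * j1 K (lb K) * (j1 K (la K) * yy K - j1 K (lb K))) =
        al (-(4 * C (lb K) * (C (la K) * X - C (lb K)))) := by
      rw [map_neg, map_mul, map_mul, map_sub, map_mul, map_ofNat]
      rfl
    have e2 : 4 * j1 K (la K) * j1 K (lb K) * yy K * zz K =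
        al (4 * C (la K) * C (lb K) * X) * zz K := by
      rw [map_mul, map_mul, map_mul, map_ofNat]
      rfl
    rw [e1, e2, re_sub, re_mul, re_al, re_al, im_al]
    change _ - (_ * 0 + cc K * 0 * 1) = _
    ring
  rw [e] at h1
  let ev : (LaurentPolynomial K)[X] →+* K := eval₂RingHom (evL K 1) 0
  have h2 := map_dvd ev h1
  have h3 : ev (C (la K)) = 0 := by
    simp [ev, evL_la]
  have h4 : ev (-(4 * C (lb K) * (C (la K) * X - C (lb K)))) = 16 := by
    simp [ev, evL_la, evL_lb]
    norm_num
  rw [h3, h4, zero_dvd_iff] at h2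
  norm_num at h2

/-- a nonzero locally nilpotent derivation -/
noncomputable def D0 : Derivation K (RR K) (RR K) :=
  Derivation.mk'
    { toFun := fun r => mk (2 * cc K * derivative (im r) + C (la K * lb K * la K) * im r)
        (2 * derivative (re r))
      map_add' := fun r s => by
        apply rr_ext
        · simp only [re_add, im_add, re_mk, derivative_add]
          ring
        · simp only [re_add, im_add, im_mk, derivative_add]
          ring
      map_smul' := fun c r => by
        apply rr_ext
        · simp only [re_smul, im_smul, re_mk, derivative_smul, RingHom.id_apply, smul_add,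
            mul_smul_comm]
        · simp only [re_smul, im_smul, im_mk, derivative_smul, RingHom.id_apply,
            mul_smul_comm] }
    (fun r s => by
      have hc := der_cc K
      apply rr_ext
      · simp only [LinearMap.coe_mk, AddHom.coe_mk, im_mul, re_add, re_mul, re_mk, im_mk,
          smul_eq_mul, derivative_add, derivative_mul]
        ring
      · simp only [LinearMap.coe_mk, AddHom.coe_mk, re_mul, im_add, im_mul, re_mk, im_mk,
          smul_eq_mul, derivative_add, derivative_mul, hc]
        ring)

theorem D0_apply (r : RR K) : D0 K r =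
    mk (2 * cc K * derivative (im r) + C (la K * lb K * la K) * im r)
        (2 * derivative (re r)) := rfl

theorem D0_lnd : IsLND (D0 K) := by
  have hC : ∀ f : LaurentPolynomial K, D0 K (al (C f)) = 0 := by
    intro f
    rw [D0_apply, re_al, im_al]
    apply rr_ext
    · rw [re_mk, re_zero]; simp
    · rw [im_mk, im_zero]; simp
  have hz : D0 K (zz K) = al (C (la K * lb K * la K)) := by
    rw [D0_apply]
    apply rr_ext
    · rw [re_mk, re_al]
      change 2 * cc K * derivative 1 + C (la K * lb K * la K) * 1 = _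
      simp
    · rw [im_mk, im_al]
      change 2 * derivative 0 = _
      simp
  have hy : D0 K (yy K) = zz K + zz K := by
    rw [D0_apply]
    apply rr_ext
    · rw [re_mk, re_add]
      change 2 * cc K * derivative 0 + C (la K * lb K * la K) * 0 = 0 + 0
      simp
    · rw [im_mk, im_add]
      change 2 * derivative X = 1 + 1
      rw [derivative_X]
      ring
  have nz : ∃ n : ℕ, (⇑(D0 K))^[n] (zz K) = 0 := ⟨2, by
    rw [Function.iterate_succ_apply', Function.iterate_succ_apply', Function.iterate_zero_apply,
      hz, hC]⟩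
  have ny : ∃ n : ℕ, (⇑(D0 K))^[n] (yy K) = 0 := ⟨3, by
    rw [Function.iterate_succ_apply', Function.iterate_succ_apply', Function.iterate_succ_apply',
      Function.iterate_zero_apply, hy, map_add, hz, map_add, hC, add_zero]⟩
  have nC : ∀ f : LaurentPolynomial K, ∃ n : ℕ,
      (⇑(D0 K))^[n] (al (C f)) = 0 := fun f => ⟨1, by
    rw [Function.iterate_succ_apply', Function.iterate_zero_apply, hC]⟩
  have np : ∀ n : ℕ, ∃ m : ℕ, (⇑(D0 K))^[m] (yy K ^ n) = 0 := by
    intro n
    induction n with
    | zero => exact ⟨1, by simp⟩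
    | succ n ih => rw [pow_succ]; exact nil_mul _ _ _ ih ny
  have nA : ∀ p : (LaurentPolynomial K)[X], ∃ n : ℕ,
      (⇑(D0 K))^[n] (al p) = 0 := by
    intro p
    induction p using Polynomial.induction_on' with
    | add p q hp hq => rw [map_add]; exact nil_add _ _ _ hp hq
    | monomial n f =>
      rw [← C_mul_X_pow_eq_monomial, map_mul, map_pow]
      exact nil_mul _ _ _ (nC f) (np n)
  intro r
  rw [q_decomp K r]
  exact nil_add _ _ _ (nA _) (nil_mul _ _ _ (nA _) nz)

theorem not_rigid [CharZero K] : ¬ IsRigid K (RR K) := by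
  intro h
  have h1 := h (D0 K) (D0_lnd K)
  have h2 : D0 K (zz K) = 0 := by rw [h1]; rfl
  rw [D0_apply] at h2
  have h3 := congrArg re h2
  rw [re_mk] at h3
  change 2 * cc K * derivative 1 + C (la K * lb K * la K) * 1 = 0 at h3
  have h4 : C (la K * lb K * la K) = 0 := by
    simpa using h3
  exact mul_ne_zero (mul_ne_zero (la_ne K) (lb_ne K)) (la_ne K) (C_eq_zero.mp h4)

theorem finType : Algebra.FiniteType K (RR K) := by
  have h1 : Algebra.FiniteType K (LaurentPolynomial K) := inferInstance
  have h2 : Algebra.FiniteType K ((LaurentPolynomial K)[X]) :=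
    Algebra.FiniteType.trans (S := LaurentPolynomial K) h1 inferInstance
  let f : ((LaurentPolynomial K)[X])[X] →ₐ[K] RR K :=
    { toRingHom := eval₂RingHom al (zz K)
      commutes' := fun r => by
        change eval₂ al (zz K) (C (algebraMap K _ r)) = _
        rw [eval₂_C]
        rfl }
  have h3 : Algebra.FiniteType K (((LaurentPolynomial K)[X])[X]) :=
    Algebra.FiniteType.trans (S := (LaurentPolynomial K)[X]) h2 inferInstance
  refine h3.of_surjective f ?_
  intro r
  refine ⟨C (re r) + C (im r) * X, ?_⟩
  change eval₂ al (zz K) _ = r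
  rw [eval₂_add, eval₂_mul, eval₂_C, eval₂_C, eval₂_X]
  exact (q_decomp K r).symm

end instantiate

theorem final (K : Type u) [Field K] [CharZero K] :
    ∃ (R : Type u) (_ : CommRing R) (_ : IsDomain R) (_ : Algebra K R),
      Algebra.FiniteType K R ∧ IsTypeB K R ∧
      ∃ p ∈ HDstar K R[X], p.coeff 1 ∉ lndIdeal K R := by
  obtain ⟨h1, h2⟩ := generic_main (Pc K) (eP K) (eP_rel K) (not_mem K) (not_rigid K)
  exact ⟨RR K, inferInstance, inferInstance, inferInstance, finType K, h1, h2⟩

end Pool.Agent.Work.MP_eab3e1_ag
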